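import Pool.Agent.TTC.StmtsF
import Pool.Agent.Helper62_TTC.CUB

set_option autoImplicit false

/-!
# Squad TTC, row LO6: the place is good for the odd model (helper75)
-/

namespace Pool.Agent.TTC.H75

open Polynomial NumberField Pool.Agent.TTC
open Pool.Agent.TTC.H62 (v_int_le v_int_eq res_eq discr_map5)

/-! ### the valuation ring (as in Helper17_KDD/BAS) -/

section

variable {E : Type} [Field E] (w : AbsoluteValue E ℝ) (hna : IsNonarchimedean w)

/-- the valuation ring -/
def Ov : Subring E where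
  carrier := {x | w x ≤ 1}
  mul_mem' := fun {x y} hx hy => by
    have hx' : w x ≤ 1 := hx
    have hy' : w y ≤ 1 := hy
    show w (x * y) ≤ 1
    rw [map_mul]
    exact mul_le_one₀ hx' (w.nonneg y) hy'
  one_mem' := by
    show w 1 ≤ 1
    rw [map_one]
  add_mem' := fun {x y} hx hy => (hna x y).trans (max_le hx hy)
  zero_mem' := by
    show w 0 ≤ 1
    rw [map_zero]
    norm_num
  neg_mem' := fun {x} hx => by
    show w (-x) ≤ 1
    rw [w.map_neg]
    exact hx

/-- the maximal ideal -/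
def mv : Ideal (Ov w hna) where
  carrier := {x | w x.1 < 1}
  add_mem' := fun {x y} hx hy => (hna x.1 y.1).trans_lt (max_lt hx hy)
  zero_mem' := by
    show w 0 < 1
    rw [map_zero]
    norm_num
  smul_mem' := fun c {x} hx => by
    show w (c.1 * x.1) < 1
    rw [map_mul]
    calc w c.1 * w x.1 ≤ 1 * w x.1 := mul_le_mul_of_nonneg_right c.2 (w.nonneg _)
      _ < 1 := by
        rw [one_mul]
        exact hx

theorem mv_max : (mv w hna).IsMaximal := by
  rw [Ideal.isMaximal_iff]
  refine ⟨fun h => ?_, fun J x hJ hx hxJ => ?_⟩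
  · have h1 : w 1 < 1 := h
    rw [map_one] at h1
    exact lt_irrefl _ h1
  · have h1 : w x.1 = 1 := le_antisymm x.2 (not_lt.mp hx)
    have h2 : w (x.1)⁻¹ ≤ 1 := by
      rw [map_inv₀, h1]
      simp
    have h3 : x.1 ≠ 0 := fun h => by
      rw [h, map_zero] at h1
      norm_num at h1
    have h4 : (⟨x.1⁻¹, h2⟩ : Ov w hna) * x = 1 := Subtype.ext (inv_mul_cancel₀ h3)
    rw [← h4]
    exact J.mul_mem_left _ hxJ

end

theorem om_monic {R : Type} [CommRing R] [Nontrivial R] (a : Fin 7 → R) (α : R) :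
    (om a α).Monic := by
  unfold om
  monicity!

theorem om_deg {R : Type} [CommRing R] [Nontrivial R] (a : Fin 7 → R) (α : R) :
    (om a α).natDegree = 5 := by
  unfold om
  compute_degree!

/-- a root of the sextic is in the valuation ring -/
theorem root_le {K : Type} [Field K] (w : AbsoluteValue K ℝ) (hna : IsNonarchimedean w)
    (b : Fin 7 → K) (hb : ∀ i, w (b i) ≤ 1) (h0 : w (b 0) = 1) (α : K)
    (hα : (sext b).eval α = 0) : w α ≤ 1 := by
  by_contra hlt
  push Not at hlt
  have h1 : b 0 * α ^ 6 = -(b 1 * α ^ 5 + b 2 * α ^ 4 + b 3 * α ^ 3 + b 4 * α ^ 2 + b 5 * α ^ 1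
      + b 6 * α ^ 0) := by
    unfold sext at hα
    simp only [eval_add, eval_mul, eval_C, eval_pow, eval_X] at hα
    linear_combination hα
  have ht : ∀ (i : Fin 7) (j : ℕ), j ≤ 5 → w (b i * α ^ j) ≤ w α ^ 5 := by
    intro i j hj
    rw [map_mul, map_pow]
    calc w (b i) * w α ^ j ≤ 1 * w α ^ j :=
          mul_le_mul_of_nonneg_right (hb i) (pow_nonneg (w.nonneg _) _)
      _ = w α ^ j := one_mul _
      _ ≤ w α ^ 5 := pow_le_pow_right₀ hlt.le hj
  have hs : ∀ x y, w x ≤ w α ^ 5 → w y ≤ w α ^ 5 → w (x + y) ≤ w α ^ 5 :=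
    fun x y hx hy => (hna x y).trans (max_le hx hy)
  have h2 : w (b 1 * α ^ 5 + b 2 * α ^ 4 + b 3 * α ^ 3 + b 4 * α ^ 2 + b 5 * α ^ 1
      + b 6 * α ^ 0) ≤ w α ^ 5 := by
    refine hs _ _ (hs _ _ (hs _ _ (hs _ _ (hs _ _ ?_ ?_) ?_) ?_) ?_) ?_
    · exact ht 1 5 le_rfl
    · exact ht 2 4 (by norm_num)
    · exact ht 3 3 (by norm_num)
    · exact ht 4 2 (by norm_num)
    · exact ht 5 1 (by norm_num)
    · exact ht 6 0 (by norm_num)
  rw [← w.map_neg, ← h1, map_mul, h0, one_mul, map_pow] at h2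
  have h3 : w α ^ 5 < w α ^ 6 := pow_lt_pow_right₀ hlt (by norm_num)
  exact absurd h2 (not_le.2 h3)

/-- three polynomials without a common root generate the unit ideal -/
theorem bez3 {F k : Type} [Field F] [Field k] [Algebra F k] [IsAlgClosed k] (f g h : F[X])
    (H : ∀ z : k, ¬ ((f.map (algebraMap F k)).eval z = 0 ∧ (g.map (algebraMap F k)).eval z = 0 ∧
      (h.map (algebraMap F k)).eval z = 0)) :
    ∃ A B C : F[X], A * f + B * g + C * h = 1 := by
  classical
  set d1 := EuclideanDomain.gcd g h with hd1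
  set d := EuclideanDomain.gcd f d1 with hd
  have e1 : d1 = g * EuclideanDomain.gcdA g h + h * EuclideanDomain.gcdB g h :=
    EuclideanDomain.gcd_eq_gcd_ab g h
  have e2 : d = f * EuclideanDomain.gcdA f d1 + d1 * EuclideanDomain.gcdB f d1 :=
    EuclideanDomain.gcd_eq_gcd_ab f d1
  have v1 : d ∣ f := EuclideanDomain.gcd_dvd_left f d1
  have v0 : d ∣ d1 := EuclideanDomain.gcd_dvd_right f d1
  have v2 : d ∣ g := v0.trans (EuclideanDomain.gcd_dvd_left g h)
  have v3 : d ∣ h := v0.trans (EuclideanDomain.gcd_dvd_right g h)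
  have hroot : ∀ z : k, (d.map (algebraMap F k)).eval z ≠ 0 := by
    intro z hz
    have hh : ∀ q : F[X], d ∣ q → (q.map (algebraMap F k)).eval z = 0 := by
      rintro q ⟨r, rfl⟩
      rw [Polynomial.map_mul, eval_mul, hz, zero_mul]
    exact H z ⟨hh f v1, hh g v2, hh h v3⟩
  have hdeg : (d.map (algebraMap F k)).degree = 0 := by
    by_contra hne
    obtain ⟨z, hz⟩ := IsAlgClosed.exists_root _ hne
    exact hroot z hz
  rw [degree_map] at hdeg
  have hu : IsUnit d := isUnit_iff_degree_eq_zero.2 hdeg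
  obtain ⟨c, hc⟩ := hu.exists_left_inv
  refine ⟨c * EuclideanDomain.gcdA f d1,
    c * EuclideanDomain.gcdB f d1 * EuclideanDomain.gcdA g h,
    c * EuclideanDomain.gcdB f d1 * EuclideanDomain.gcdB g h, ?_⟩
  calc _ = c * (f * EuclideanDomain.gcdA f d1 +
        (g * EuclideanDomain.gcdA g h + h * EuclideanDomain.gcdB g h) *
          EuclideanDomain.gcdB f d1) := by ring
    _ = c * d := by rw [← e1, ← e2]
    _ = 1 := hc

/-- the proof, for a given residue field -/
theorem core (hN : Na6Stmt) (hC : Cr6Stmt) (hO : Om2Stmt) (K : Type) [Field K] [NumberField K]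
    (v : FinitePlace K) (a : Fin 7 → ℤ) (α : K) (p : ℕ) (hp : p.Prime) (hv : v (p : K) < 1)
    (hd : (p : ℤ) ∣ d6 a) (he : ¬ (p : ℤ) ∣ e6 a)
    (hα : ((sext a).map (Int.castRingHom K)).eval α = 0)
    (hα' : v ((derivative ((sext a).map (Int.castRingHom K))).eval α) = 1)
    (hna : IsNonarchimedean v.val) (κ : Type) [Field κ] (π : Ov v.val hna →+* κ)
    (hsur : Function.Surjective π) (hker : ∀ x : Ov v.val hna, π x = 0 ↔ v.val x.1 < 1) :
    KDD.CubeFree v.val (om (fun i => ((a i : ℤ) : K)) α) ∧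
      v (discr (om (fun i => ((a i : ℤ) : K)) α)) < 1 := by
  have hi : ∀ n : ℤ, v.val (n : K) ≤ 1 := fun n => v_int_le K v n
  have hi1 : ∀ n : ℤ, ¬ (p : ℤ) ∣ n → v.val (n : K) = 1 := fun n hn => v_int_eq K v p hp hv n hn
  have he6 : ∀ n : ℤ, n ∣ e6 a → ¬ (p : ℤ) ∣ n := fun n hn h => he (h.trans hn)
  have p6 : ¬ (p : ℤ) ∣ 6 := he6 6 ⟨a 0 * (crit a).coeff 1, by unfold e6; ring⟩
  have p2 : ¬ (p : ℤ) ∣ 2 := he6 2 ⟨3 * (a 0 * (crit a).coeff 1), by unfold e6; ring⟩
  have pa : ¬ (p : ℤ) ∣ a 0 := he6 (a 0) ⟨6 * (crit a).coeff 1, by unfold e6; ring⟩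
  -- the sextic over K
  have sK : sext (fun i => ((a i : ℤ) : K)) = (sext a).map (Int.castRingHom K) :=
    (hN ℤ K (Int.castRingHom K) a).1
  rw [← sK] at hα hα'
  have hα1 : v.val α ≤ 1 :=
    root_le v.val hna _ (fun i => hi (a i)) (hi1 (a 0) pa) α hα
  set ρ : Ov v.val hna →+* AlgebraicClosure κ :=
    (algebraMap κ (AlgebraicClosure κ)).comp π with hρ
  have hρ0 : ∀ x : Ov v.val hna, ρ x = 0 ↔ v.val x.1 < 1 := by
    intro x
    rw [← hker x]
    constructor
    · intro h
      exact (algebraMap κ (AlgebraicClosure κ)).injective (by rw [map_zero]; exact h)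
    · intro h
      show (algebraMap κ (AlgebraicClosure κ)) (π x) = 0
      rw [h, map_zero]
  set aO : Fin 7 → Ov v.val hna := fun i => ((a i : ℤ) : Ov v.val hna) with haO
  set αO : Ov v.val hna := ⟨α, hα1⟩ with hαO
  have aOK : (fun i => (Ov v.val hna).subtype (aO i)) = fun i => ((a i : ℤ) : K) := by
    funext i
    exact map_intCast (Ov v.val hna).subtype (a i)
  have aOk : (fun i => ρ (aO i)) = fun i => (Int.castRingHom (AlgebraicClosure κ)) (a i) := by
    funext i
    exact map_intCast ρ (a i)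
  obtain ⟨s1, -, -, o1⟩ := hN (Ov v.val hna) K (Ov v.val hna).subtype aO
  obtain ⟨s2, -, -, o2⟩ := hN (Ov v.val hna) (AlgebraicClosure κ) ρ aO
  obtain ⟨-, d3, e3, -⟩ := hN ℤ (AlgebraicClosure κ) (Int.castRingHom _) a
  have o1' := o1 αO
  have o2' := o2 αO
  rw [aOK] at s1 o1'
  have hint : ∀ n : ℤ, ((n : AlgebraicClosure κ) = 0 ↔ v.val (n : K) < 1) := by
    intro n
    have h1 := hρ0 (n : Ov v.val hna)
    rw [map_intCast] at h1
    have h2 : ((n : Ov v.val hna) : Ov v.val hna).1 = (n : K) :=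
      map_intCast (Ov v.val hna).subtype n
    rw [h2] at h1
    exact h1
  have hne : ∀ n : ℤ, ¬ (p : ℤ) ∣ n → (n : AlgebraicClosure κ) ≠ 0 := by
    intro n hn h
    have h1 := (hint n).1 h
    rw [hi1 n hn] at h1
    exact lt_irrefl _ h1
  have hp0 : ((p : ℤ) : AlgebraicClosure κ) = 0 := by
    rw [hint]
    have : ((p : ℤ) : K) = (p : K) := Int.cast_natCast p
    rw [this]
    exact hv
  have c6 : (6 : AlgebraicClosure κ) ≠ 0 := by
    have := hne 6 p6
    exact_mod_cast this
  have ca : ρ (aO 0) ≠ 0 := by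
    have e : ρ (aO 0) = ((a 0 : ℤ) : AlgebraicClosure κ) := map_intCast ρ (a 0)
    rw [e]
    exact hne _ pa
  have cd : d6 (fun i => ρ (aO i)) = 0 := by
    rw [aOk, d3]
    obtain ⟨q, hq⟩ := hd
    rw [hq, eq_intCast, Int.cast_mul, hp0, zero_mul]
  have ce : e6 (fun i => ρ (aO i)) ≠ 0 := by
    rw [aOk, e3, eq_intCast]
    exact hne _ he
  have hnode : OneNode (sext fun i => ρ (aO i)) :=
    (hC (AlgebraicClosure κ) (fun i => ρ (aO i)) c6 ca).2.1 ⟨cd, ce⟩
  -- the root
  have hF0 : (sext aO).eval αO = 0 := by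
    apply Subtype.ext
    have h1 := hα
    rw [s1] at h1
    have h2 : (((sext aO).map (Ov v.val hna).subtype).eval ((Ov v.val hna).subtype αO)) = 0 := h1
    rw [eval_map_apply] at h2
    exact h2
  have hF1 : v.val ((derivative (sext aO)).eval αO).1 = 1 := by
    have h1 := hα'
    rw [s1, derivative_map] at h1
    have h2 : v (((derivative (sext aO)).map (Ov v.val hna).subtype).eval
      ((Ov v.val hna).subtype αO)) = 1 := h1
    rw [eval_map_apply] at h2
    exact h2
  have hk0 : (sext fun i => ρ (aO i)).eval (ρ αO) = 0 := by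
    rw [s2, eval_map_apply, hF0, map_zero]
  have hk1 : (derivative (sext fun i => ρ (aO i))).eval (ρ αO) ≠ 0 := by
    rw [s2, derivative_map, eval_map_apply]
    intro h
    have h1 := (hρ0 _).1 h
    rw [hF1] at h1
    exact lt_irrefl _ h1
  obtain ⟨t1, t2⟩ := hO (AlgebraicClosure κ) (fun i => ρ (aO i)) (ρ αO) c6 ca hk0 hk1 hnode
  rw [o2'] at t1 t2
  set fO : (Ov v.val hna)[X] := om aO αO with hfO
  have hρπ : ∀ q : (Ov v.val hna)[X], (q.map π).map (algebraMap κ (AlgebraicClosure κ)) =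
      q.map ρ := fun q => Polynomial.map_map _ _ _
  have hf : om (fun i => ((a i : ℤ) : K)) α = fO.map (Ov v.val hna).subtype := o1'
  rw [hf]
  obtain ⟨A, B, D, hABD⟩ := bez3 (k := AlgebraicClosure κ) (fO.map π) ((derivative fO).map π)
    ((derivative (derivative fO)).map π) (by
      intro z hz
      rw [hρπ, hρπ, hρπ, ← derivative_map, ← derivative_map, ← derivative_map] at hz
      exact t1 z hz)
  obtain ⟨A', hA'⟩ := Polynomial.map_surjective π hsur A
  obtain ⟨B', hB'⟩ := Polynomial.map_surjective π hsur B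
  obtain ⟨D', hD'⟩ := Polynomial.map_surjective π hsur D
  have hcO : ∀ (q : (Ov v.val hna)[X]) (n : ℕ),
      v.val ((q.map (Ov v.val hna).subtype).coeff n) ≤ 1 := by
    intro q n
    rw [coeff_map]
    exact (q.coeff n).2
  refine ⟨⟨?_, hcO fO, A'.map (Ov v.val hna).subtype, B'.map (Ov v.val hna).subtype,
    D'.map (Ov v.val hna).subtype, fun n => ⟨hcO A' n, hcO B' n, hcO D' n⟩, fun n => ?_⟩, ?_⟩
  · have h1 := hi1 2 p2
    exact_mod_cast h1
  · have e1 : A'.map (Ov v.val hna).subtype * fO.map (Ov v.val hna).subtype +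
        B'.map (Ov v.val hna).subtype * derivative (fO.map (Ov v.val hna).subtype) +
        D'.map (Ov v.val hna).subtype *
          derivative (derivative (fO.map (Ov v.val hna).subtype)) - 1 =
        (A' * fO + B' * derivative fO + D' * derivative (derivative fO) - 1).map
          (Ov v.val hna).subtype := by
      rw [derivative_map, derivative_map, Polynomial.map_sub, Polynomial.map_add,
        Polynomial.map_add, Polynomial.map_mul, Polynomial.map_mul, Polynomial.map_mul,
        Polynomial.map_one]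
    have e2 : (A' * fO + B' * derivative fO + D' * derivative (derivative fO) - 1).map π = 0 := by
      rw [Polynomial.map_sub, Polynomial.map_add, Polynomial.map_add, Polynomial.map_mul,
        Polynomial.map_mul, Polynomial.map_mul, Polynomial.map_one, hA', hB', hD', hABD, sub_self]
    rw [e1, coeff_map]
    have e3 := congrArg (fun q : κ[X] => q.coeff n) e2
    simp only [coeff_map, coeff_zero] at e3
    exact (hker _).1 e3
  · have hm := om_monic aO αO
    have hdg := om_deg aO αO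
    rw [discr_map5 (Ov v.val hna).subtype fO hm hdg]
    have h1 : ρ (discr fO) = 0 := by
      rw [← discr_map5 ρ fO hm hdg]
      have hm' : (fO.map ρ).Monic := hm.map ρ
      have hdg' : (fO.map ρ).natDegree = 5 := by rw [hm.natDegree_map, hdg]
      rw [← res_eq (fO.map ρ) hm' hdg']
      have hd2 : (derivative (fO.map ρ)).natDegree ≤ 4 := by
        refine (natDegree_derivative_le _).trans ?_
        rw [hdg']
      obtain ⟨P, Q, -, -, hPQ⟩ := exists_mul_add_mul_eq_C_resultant (m := 5) (n := 4)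
        (fO.map ρ) (derivative (fO.map ρ)) hdg'.le hd2 (by simp)
      obtain ⟨z, hz1, hz2⟩ := t2
      have h3 := congrArg (Polynomial.eval z) hPQ
      rw [eval_add, eval_mul, eval_mul, hz1, hz2, zero_mul, zero_mul, add_zero, eval_C] at h3
      exact h3.symm
    exact (hρ0 _).1 h1

/-- **Row LO6.** -/
theorem lo6 (hN : Na6Stmt) (hC : Cr6Stmt) (hO : Om2Stmt) : Lo6Stmt := by
  intro K _ _ v a α p hp hv hd he hα hα'
  have hna : IsNonarchimedean v.val := fun x y => FinitePlace.add_le v x y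
  haveI hmax : (mv v.val hna).IsMaximal := mv_max v.val hna
  letI : Field (Ov v.val hna ⧸ mv v.val hna) := Ideal.Quotient.field _
  exact core hN hC hO K v a α p hp hv hd he hα hα' hna (Ov v.val hna ⧸ mv v.val hna)
    (Ideal.Quotient.mk (mv v.val hna)) Ideal.Quotient.mk_surjective
    (fun x => Ideal.Quotient.eq_zero_iff_mem)

end Pool.Agent.TTC.H75
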